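import Mathlib
import Pool.Agent.Lib.MP_ed45fc_co.Main

namespace Pool.Agent.Results.MP_ed45fc_co.NotWeaklyContractible

/-- `G` contains an `H`-scheme, the inclusion of `V(H)` in `V(G)` being the embedding `ι`:
one path for each edge of `H` (recorded in both directions), meeting `V(H)` only in its ends,
such that edges whose paths have a common vertex are all incident with one vertex of `H`. -/
def HasScheme {W V : Type} (H : SimpleGraph W) (G : SimpleGraph V) (ι : W ↪ V) : Prop :=
  ∃ P : (d : H.Dart) → G.Walk (ι d.fst) (ι d.snd),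
    (∀ d, (P d).IsPath) ∧
    (∀ d, P d.symm = (P d).reverse) ∧
    (∀ d w, ι w ∈ (P d).support → w = d.fst ∨ w = d.snd) ∧
    (∀ S : Finset H.Dart, S.Nonempty → (∃ x, ∀ d ∈ S, x ∈ (P d).support) →
      ∃ u, ∀ d ∈ S, u = d.fst ∨ u = d.snd)

/-- `G` has an `H`-minor: disjoint connected subgraphs, joined by an edge of `G` for each edge
of `H`. -/
def HasMinor {W V : Type} (H : SimpleGraph W) (G : SimpleGraph V) : Prop :=
  ∃ C : W → G.Subgraph,
    (∀ v, (C v).Connected) ∧
    (∀ u v, u ≠ v → Disjoint (C u).verts (C v).verts) ∧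
    (∀ u v, H.Adj u v → ∃ x ∈ (C u).verts, ∃ y ∈ (C v).verts, G.Adj x y)

/-- Every finite graph containing an `H`-scheme has an `H`-minor. -/
def WeaklyContractible {W : Type} (H : SimpleGraph W) : Prop :=
  ∀ (V : Type) [Finite V] (G : SimpleGraph V) (ι : W ↪ V), HasScheme H G ι → HasMinor H G

open Pool.Agent.Lib.MP_ed45fc_co in
theorem result (n : ℕ) (hn : 11520 ≤ n) :
    ¬ WeaklyContractible (SimpleGraph.completeGraph (Fin n)) := by
  classical
  intro hW
  obtain ⟨X, hX⟩ := no_model n hn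
  let ι : Fin n ↪ Fin n × Bool := ⟨fun i => (i, false), fun i j h => congrArg Prod.fst h⟩
  have hs : HasScheme (SimpleGraph.completeGraph (Fin n)) (Gr X) ι := by
    refine ⟨fun d => pathOf X d.fst d.snd d.adj.ne, ?_, ?_, ?_, ?_⟩
    · intro d; exact pathOf_isPath X _ _ _
    · intro d; exact pathOf_symm X _ _ _
    · intro d w hw
      exact pathOf_support X _ _ _ _ hw
    · rintro S _ ⟨x, hx⟩
      exact ⟨x.1, fun d hd => pathOf_support X _ _ _ _ (hx d hd)⟩
  obtain ⟨C, hC, hD, hA⟩ := hW _ _ ι hs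
  refine hX (fun i => (C i).verts.toFinset) ?_ ?_ ?_ ?_
  · intro i
    obtain ⟨x, hx⟩ := (hC i).nonempty
    exact ⟨x, by simpa using hx⟩
  · intro i j hij
    simpa using hD i j hij
  · intro i x hx y hy hxy
    simp only [Set.mem_toFinset] at hx hy ⊢
    obtain ⟨p⟩ := (hC i).coe.preconnected ⟨x, hx⟩ ⟨y, hy⟩
    obtain ⟨z, hz⟩ := first_step p (fun h => hxy (congrArg Subtype.val h))
    exact ⟨z.1, z.2, (C i).adj_sub hz⟩
  · intro i j hij
    simpa using hA i j hij

end Pool.Agent.Results.MP_ed45fc_co.NotWeaklyContractible
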